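import Pool.Agent.U469.RT.Stm

/-!
Project RT: the deterministic bound of one term.
-/

set_option autoImplicit false

namespace Pool.Agent.U469.RT

open Pool.Agent.R248.Ritt Finset

lemma op_one_sub_U (hR : S_OPR) (r : ℕ) : Op 2 0 (1 - U r) := by
  obtain ⟨h1, h2, h3, h4, h5, h6, h7⟩ := hR
  have e : (1 : A) - U r = 1 + (-1 : ℝ) • U r := by
    rw [neg_one_smul, sub_eq_add_neg]
  rw [e]
  refine h7 _ _ _ _ _ ?_ ?_ (h3 _ _ _ _ _ _ h1 (h4 _ _ (-1) _ (h2 r)))
  · norm_num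
  · norm_num

lemma op_prod_one_sub_U (hR : S_OPR) {ι : Type} [DecidableEq ι] (r : ι → ℕ) (S : Finset ι) :
    Op (2 ^ S.card) 0 (∏ i ∈ S, (1 - U (r i))) := by
  induction S using Finset.induction_on with
  | empty => simpa using hR.1
  | insert a s ha ih =>
    rw [prod_insert ha, card_insert_of_notMem ha]
    refine hR.2.2.2.2.2.2 _ _ _ _ _ ?_ ?_ (hR.2.2.2.2.2.1 _ _ _ _ _ _ (by norm_num) le_rfl
      (op_one_sub_U hR (r a)) ih)
    · rw [pow_succ]; linarith
    · simp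

lemma op_prod_U (hR : S_OPR) {ι : Type} [DecidableEq ι] (r : ι → ℕ) (S : Finset ι) :
    Op 1 0 (∏ i ∈ S, U (r i)) := by
  induction S using Finset.induction_on with
  | empty => simpa using hR.1
  | insert a s ha ih =>
    rw [prod_insert ha]
    refine hR.2.2.2.2.2.2 _ _ _ _ _ ?_ ?_ (hR.2.2.2.2.2.1 _ _ _ _ _ _ (by norm_num) le_rfl
      (hR.2.1 (r a)) ih)
    · simp
    · simp

lemma op_prod (hR : S_OPR) {ι : Type} [DecidableEq ι] (Q : Finset ι) (z : ι → ℝ) (a b : ℝ)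
    (ha : 0 < a) (hb : 0 ≤ b) (hz : ∀ i, 0 ≤ z i) (h : ι → A)
    (hop : ∀ i ∈ Q, Op (z i * a ^ 2) (z i * (2 * a * b)) (h i)) :
    Op (∏ i ∈ Q, (z i * a ^ 2)) ((∏ i ∈ Q, (z i * a ^ 2)) * (2 * Q.card * b / a))
      (∏ i ∈ Q, h i) := by
  induction Q using Finset.induction_on with
  | empty => simpa using hR.1
  | insert c s hc ih =>
    rw [prod_insert hc, prod_insert hc, card_insert_of_notMem hc]
    have hP : 0 ≤ ∏ i ∈ s, (z i * a ^ 2) := prod_nonneg fun i _ => mul_nonneg (hz i) (sq_nonneg a)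
    refine hR.2.2.2.2.2.2 _ _ _ _ _ ?_ ?_ (hR.2.2.2.2.2.1 _ _ _ _ _ _ ?_ ?_
      (hop c (mem_insert_self _ _)) (ih fun i hi => hop i (mem_insert_of_mem hi)))
    · exact le_rfl
    · refine le_of_eq ?_
      push_cast
      field_simp
    · exact mul_nonneg (hz c) (sq_nonneg a)
    · exact mul_nonneg (hz c) (by positivity)

/-- the easy bound -/
lemma trm_easy (hR : S_OPR) {ι : Type} [DecidableEq ι] (r : ι → ℕ) (I S : Finset ι) :
    Mj (2 ^ S.card) (trm I r S) := by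
  have h1 := hR.2.2.2.2.2.1 _ _ _ _ _ _ (by positivity) le_rfl (op_prod_one_sub_U hR r S)
    (op_prod_U hR r (I \ S))
  obtain ⟨Ψ, e1, e2, e3, e4⟩ := h1 1 1 SU_one (fun k => by
    rw [abs_of_nonneg (SU_one.nonneg k)])
  refine ⟨Ψ, e1, fun k => ?_, e3.trans (le_of_eq ?_)⟩
  · have := e2 k
    rwa [mul_one] at this
  · rw [N1_one]
    simp

lemma mj_zero {C : ℝ} (hC : 0 ≤ C) : Mj C (0 : A) :=
  ⟨0, ⟨fun k => by simp, fun k => by simp, fun k _ => by simp⟩, fun k => by simp, by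
    rw [N1_zero]; exact hC⟩

lemma Mj.mono {C D : ℝ} {g : A} (h : Mj C g) (hCD : C ≤ D) : Mj D g := by
  obtain ⟨Ψ, h1, h2, h3⟩ := h
  exact ⟨Ψ, h1, h2, h3.trans hCD⟩

lemma exists_inj {ι : Type} [DecidableEq ι] (Q : Finset ι) {m : ℕ} (hQ : Q.card ≤ m)
    (hne : Q.Nonempty) : ∃ c : ι → Fin m, ∀ i ∈ Q, ∀ j ∈ Q, c i = c j → i = j := by
  classical
  have hm : 0 < m := lt_of_lt_of_le (card_pos.2 hne) hQ
  refine ⟨fun i => if h : i ∈ Q then Fin.castLE hQ (Q.equivFin ⟨i, h⟩) else ⟨0, hm⟩, ?_⟩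
  intro i hi j hj hij
  simp only [dif_pos hi, dif_pos hj] at hij
  have h1 := Fin.castLE_injective hQ hij
  have h2 := Q.equivFin.injective h1
  simpa using h2

theorem trm_bound (hR : S_OPR) (hW : S_OPW) (hD : S_OPD) (hS : S_SPL) : S_TRM := by
  intro ι _ r m I Top S hTI hTop hmax hSI hSc
  classical
  set σ : ℝ := ∑ l ∈ I \ Top, (r l : ℝ) ^ 2 with hσ
  have hσ0 : 0 ≤ σ := sum_nonneg fun _ _ => sq_nonneg _
  have hm0 : (0 : ℝ) ≤ m := Nat.cast_nonneg m
  have hfac : ∀ i, 0 ≤ 10 * (3 * (m : ℝ) + 1) * (r i : ℝ) ^ 2 / σ := fun i => by positivity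
  rcases (S \ Top).eq_empty_or_nonempty with hemp | hne
  · rw [hemp, prod_empty, mul_one]
    refine (trm_easy hR r I S).mono ?_
    rw [hSc]
    have : (0 : ℝ) < 2 ^ m := by positivity
    nlinarith
  have hTc : Top.card = 3 * m + 1 := by
    rcases hTop with h | h
    · exfalso
      obtain ⟨i, hi⟩ := hne
      rw [mem_sdiff] at hi
      exact hi.2 (h ▸ hSI hi.1)
    · exact h
  rcases hσ0.eq_or_lt with hz | hpos
  · -- all small radii vanish
    obtain ⟨i, hi⟩ := hne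
    have hi' := mem_sdiff.1 hi
    have hiI : i ∈ I \ Top := mem_sdiff.2 ⟨hSI hi'.1, hi'.2⟩
    have h1 : (r i : ℝ) ^ 2 ≤ σ :=
      single_le_sum (f := fun l => (r l : ℝ) ^ 2) (fun l _ => sq_nonneg _) hiI
    have h2 : r i = 0 := by
      have h3 : (r i : ℝ) ^ 2 = 0 := le_antisymm (h1.trans hz.symm.le) (sq_nonneg _)
      exact_mod_cast (pow_eq_zero_iff two_ne_zero).1 h3
    have h4 : trm I r S = 0 := by
      unfold trm
      rw [prod_eq_zero hi'.1 (by rw [h2, U_zero, sub_self]), zero_mul]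
    rw [h4]
    exact mj_zero (by
      have := prod_nonneg fun i (_ : i ∈ S \ Top) => hfac i
      positivity)
  -- main case
  obtain ⟨G0, hG1, hG2, hG3⟩ := hS ι (fun i => (r i : ℝ) ^ 2) m I Top S (fun i => sq_nonneg _) hTI
    hTc hmax hSI hSc
  have hcard : Fintype.card (Option (Fin m × Bool)) = Fintype.card (Fin (2 * m + 1)) := by
    simp [mul_comm]
  let e := Fintype.equivOfCardEq hcard
  let G : Option (Fin m × Bool) → Finset ι := fun g => G0 (e g)
  have hGsub : ∀ g, G g ⊆ I \ S := fun g => hG1 (e g)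
  have hGdisj : ∀ g g', g ≠ g' → Disjoint (G g) (G g') := fun g g' h =>
    hG2 _ _ (fun h' => h (e.injective h'))
  have hGsum : ∀ g, σ ≤ (3 * m + 1) * ∑ i ∈ G g, (r i : ℝ) ^ 2 := fun g => hG3 (e g)
  let f : Option (Fin m × Bool) → A := fun g => ∏ i ∈ G g, U (r i)
  have hfSU : ∀ g, SU (f g) := fun g => SU_prod _ _
  set η : ℝ := √((3 * m + 1) * (15 / 2) / σ) with hη
  have hη0 : 0 < η := Real.sqrt_pos.2 (by positivity)
  have hη2 : η ^ 2 = (3 * m + 1) * (15 / 2) / σ := Real.sq_sqrt (by positivity)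
  have hf0 : ∀ g, (f g).coeff 0 ≤ η := by
    intro g
    have h1 := prod_U_zero (G g) r
    have h2 := hGsum g
    have h3 : 0 ≤ (f g).coeff 0 := (hfSU g).nonneg 0
    refine Real.le_sqrt_of_sq_le ?_
    rw [le_div_iff₀ hpos]
    have h4 : (f g).coeff 0 ^ 2 * σ ≤ (f g).coeff 0 ^ 2 * ((3 * m + 1) * ∑ i ∈ G g, (r i : ℝ) ^ 2) :=
      mul_le_mul_of_nonneg_left h2 (sq_nonneg _)
    have h5 : (f g).coeff 0 ^ 2 * ∑ i ∈ G g, (r i : ℝ) ^ 2 ≤ 15 / 2 := h1
    have h6 : (0 : ℝ) ≤ 3 * m + 1 := by positivity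
    nlinarith [mul_le_mul_of_nonneg_left h5 h6]
  have hfN : ∀ g, N1 (f g) ≤ 1 := fun g => N1_prod_U_le _ _
  have hD1 : ∀ g, Op (2 * η) 2 ((1 - T 1) * f g) := fun g =>
    hR.2.2.2.2.2.2 _ _ _ _ _ (by linarith [hf0 g]) (by linarith [hfN g]) (hD (f g) (hfSU g)).1
  have hD2 : ∀ g, Op (2 * η) 2 ((1 - T (-1)) * f g) := fun g =>
    hR.2.2.2.2.2.2 _ _ _ _ _ (by linarith [hf0 g]) (by linarith [hfN g]) (hD (f g) (hfSU g)).2
  have hQc : (S \ Top).card ≤ m := by
    rw [← hSc]; exact card_le_card sdiff_subset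
  obtain ⟨c, hc⟩ := exists_inj (S \ Top) hQc hne
  let op : ι → A := fun i => (1 - U (r i)) * (f (some (c i, false)) * f (some (c i, true)))
  have hop : ∀ i ∈ S \ Top, Op ((r i : ℝ) ^ 2 / 3 * (2 * η) ^ 2)
      ((r i : ℝ) ^ 2 / 3 * (2 * (2 * η) * 2)) (op i) := by
    intro i _
    obtain ⟨w, hw, hw2⟩ := hW (r i)
    have e1 : op i = w * (((1 - T 1) * f (some (c i, false))) *
        ((1 - T (-1)) * f (some (c i, true)))) := by
      change (1 - U (r i)) * (f (some (c i, false)) * f (some (c i, true))) = _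
      rw [hw]; ring
    rw [e1]
    refine hR.2.2.2.2.2.2 _ _ _ _ _ ?_ ?_ (hR.2.2.2.2.2.1 _ _ _ _ _ _ (by positivity) le_rfl hw2
      (hR.2.2.2.2.2.1 _ _ _ _ _ _ (by positivity) (by norm_num) (hD1 _) (hD2 _)))
    · refine le_of_eq ?_
      ring
    · refine le_of_eq ?_
      ring
  have hprod := op_prod hR (S \ Top) (fun i => (r i : ℝ) ^ 2 / 3) (2 * η) 2 (by positivity)
    (by norm_num) (fun i => by positivity) op hop
  -- the decomposition
  let W : Finset ι := (S \ Top).biUnion fun i => G (some (c i, false)) ∪ G (some (c i, true))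
  have hWsub : W ⊆ I \ S := by
    intro x hx
    obtain ⟨i, _, hx⟩ := mem_biUnion.1 hx
    rcases mem_union.1 hx with h | h
    · exact hGsub _ h
    · exact hGsub _ h
  have hWn : Disjoint W (G none) := by
    rw [disjoint_biUnion_left]
    intro i _
    rw [disjoint_union_left]
    exact ⟨hGdisj _ _ (by simp), hGdisj _ _ (by simp)⟩
  have hWprod : ∏ l ∈ W, U (r l) =
      ∏ i ∈ S \ Top, (f (some (c i, false)) * f (some (c i, true))) := by
    rw [prod_biUnion]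
    · refine prod_congr rfl fun i _ => ?_
      rw [prod_union (hGdisj _ _ (by simp))]
    · intro i hi j hj hij
      have hcij : c i ≠ c j := fun h => hij (hc i hi j hj h)
      rw [Function.onFun, disjoint_union_left, disjoint_union_right, disjoint_union_right]
      refine ⟨⟨hGdisj _ _ ?_, hGdisj _ _ ?_⟩, ⟨hGdisj _ _ ?_, hGdisj _ _ ?_⟩⟩ <;>
        simp [hcij]
  have hV : W ∪ G none ⊆ I \ S := union_subset hWsub (hGsub none)
  have e2 : ∏ l ∈ I \ S, U (r l) = (∏ l ∈ (I \ S) \ (W ∪ G none), U (r l)) *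
      ((∏ i ∈ S \ Top, (f (some (c i, false)) * f (some (c i, true)))) * f none) := by
    rw [← prod_sdiff hV, prod_union hWn, hWprod]
  have e3 : ∏ i ∈ S, (1 - U (r i)) = (∏ i ∈ S \ Top, (1 - U (r i))) *
      ∏ i ∈ S ∩ Top, (1 - U (r i)) := by
    rw [← prod_sdiff (inter_subset_left : S ∩ Top ⊆ S)]
    congr 2
    ext x
    simp only [mem_sdiff, mem_inter, not_and]
    tauto
  have e4 : trm I r S = ((∏ i ∈ S ∩ Top, (1 - U (r i))) *
      ((∏ l ∈ (I \ S) \ (W ∪ G none), U (r l)) * ∏ i ∈ S \ Top, op i)) * f none := by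
    unfold trm
    rw [e2, e3]
    change _ = ((∏ i ∈ S ∩ Top, (1 - U (r i))) * ((∏ l ∈ (I \ S) \ (W ∪ G none), U (r l)) *
      ∏ i ∈ S \ Top, ((1 - U (r i)) * (f (some (c i, false)) * f (some (c i, true)))))) * f none
    rw [prod_mul_distrib (f := fun i => 1 - U (r i))]
    ring
  have htot := hR.2.2.2.2.2.1 _ _ _ _ _ _ (by positivity) le_rfl
    (op_prod_one_sub_U hR r (S ∩ Top)) (hR.2.2.2.2.2.1 _ _ _ _ _ _ (by norm_num) le_rfl
      (op_prod_U hR r ((I \ S) \ (W ∪ G none))) hprod)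
  obtain ⟨Ψ, g1, g2, g3, g4⟩ := htot (f none) (f none) (hfSU none) (fun k => by
    rw [abs_of_nonneg ((hfSU none).nonneg k)])
  refine ⟨Ψ, g1, fun k => ?_, g3.trans ?_⟩
  · rw [e4]; exact g2 k
  · have p1 : ∀ i, (r i : ℝ) ^ 2 / 3 * (2 * η) ^ 2 = 10 * (3 * m + 1) * (r i : ℝ) ^ 2 / σ := by
      intro i
      rw [mul_pow, hη2]
      field_simp
      ring
    simp only [p1]
    set P : ℝ := ∏ i ∈ S \ Top, (10 * (3 * (m : ℝ) + 1) * (r i : ℝ) ^ 2 / σ) with hP
    have hP0 : 0 ≤ P := prod_nonneg fun i _ => hfac i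
    have q1 : (2 : ℝ) ^ (S ∩ Top).card ≤ 2 ^ m := by
      refine pow_le_pow_right₀ (by norm_num) ?_
      rw [← hSc]
      exact card_le_card inter_subset_left
    have q2 : ((S \ Top).card : ℝ) ≤ m := by exact_mod_cast hQc
    have q3 := hf0 none
    have q4 := hfN none
    have q5 : 0 ≤ (f none).coeff 0 := (hfSU none).nonneg 0
    have q6 : 0 ≤ N1 (f none) := N1_nonneg _
    have q7 : (0 : ℝ) < 2 ^ (S ∩ Top).card := by positivity
    have q8 : 2 * ((S \ Top).card : ℝ) * 2 / (2 * η) * (f none).coeff 0 ≤ 2 * m := by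
      have h1 : 2 * ((S \ Top).card : ℝ) * 2 / (2 * η) * (f none).coeff 0 ≤
          2 * ((S \ Top).card : ℝ) * 2 / (2 * η) * η :=
        mul_le_mul_of_nonneg_left q3 (by positivity)
      have h2 : 2 * ((S \ Top).card : ℝ) * 2 / (2 * η) * η = 2 * ((S \ Top).card : ℝ) := by
        field_simp
      linarith
    have q9 : (2 : ℝ) ^ (S ∩ Top).card * (1 * P) * N1 (f none) +
        (2 ^ (S ∩ Top).card * (1 * (P * (2 * ((S \ Top).card : ℝ) * 2 / (2 * η))) + 0 * P) +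
          0 * (1 * P)) * (f none).coeff 0 =
        2 ^ (S ∩ Top).card * P * (N1 (f none) +
          2 * ((S \ Top).card : ℝ) * 2 / (2 * η) * (f none).coeff 0) := by ring
    rw [q9]
    calc (2 : ℝ) ^ (S ∩ Top).card * P * (N1 (f none) +
          2 * ((S \ Top).card : ℝ) * 2 / (2 * η) * (f none).coeff 0)
        ≤ 2 ^ (S ∩ Top).card * P * (1 + 2 * m) :=
          mul_le_mul_of_nonneg_left (by linarith) (by positivity)
      _ ≤ 2 ^ m * P * (1 + 2 * m) := by
          refine mul_le_mul_of_nonneg_right (mul_le_mul_of_nonneg_right q1 hP0) (by positivity)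
      _ = 2 ^ m * (2 * m + 1) * P := by ring

end Pool.Agent.U469.RT
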