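import Pool.Agent.U469.RT.Stm

/-!
Project RT: assembly.
-/

set_option autoImplicit false

namespace Pool.Agent.U469.RT

open Pool.Agent.R248.Ritt Finset Filter Topology

/-- The action of a function on the integers on vector valued functions by convolution. -/
noncomputable def act {E : Type*} [NormedAddCommGroup E] [NormedSpace ℝ E] (ν : ℤ → ℝ)
    (f : ℤ → E) (k : ℤ) : E := ∑' j : ℤ, ν j • f (k - j)

/-- the kernel `μ^n * (δ - μ)^m` -/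
noncomputable def kr (μ : ℤ → ℝ) (n m : ℕ) : ℤ → ℝ := cv (cvPow μ n) (cvPow (dm μ) m)

lemma SU.abs_eq {f : A} (h : SU f) (k : ℤ) : |f.coeff k| = f.coeff k := abs_of_nonneg (h.nonneg k)

lemma mjZ_of_mj {C : ℝ} {g : A} (h : Mj C g) : MjZ C (fun k => g.coeff k) := by
  obtain ⟨Ψ, h1, h2, h3⟩ := h
  refine ⟨fun k => Ψ.coeff k, fun x y hxy => h1.le hxy, h1.nonneg, summ' Ψ, ?_, h2⟩
  refine le_trans (le_of_eq ?_) h3
  unfold N1
  exact tsum_congr fun k => (SU.abs_eq h1 k).symm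

section

variable {μ : ℤ → ℝ} (h0 : ∀ k, 0 ≤ μ k) (h1 : HasSum μ 1) (hs : ∀ k, μ (-k) = μ k)
  (ha : ∀ n : ℕ, μ (n + 1) ≤ μ n)

include h0 h1 hs ha in
/-- majorants of the kernels -/
lemma kr_maj (hLIA : S_LIA) (hLIB : S_LIB) {m : ℕ} {C : ℝ} (hC : 0 < C)
    (hM : ∀ (p : ℕ → ℝ), (∀ j, 0 ≤ p j) → ∀ R n : ℕ, 1 ≤ n →
    Mj (C / (n : ℝ) ^ m * (∑ j ∈ range R, p j) ^ (n + m))
      (((∑ j ∈ range R, p j) • (1 : A) - ∑ j ∈ range R, p j • U j) ^ m *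
      (∑ j ∈ range R, p j • U j) ^ n)) (n : ℕ) (hn : 1 ≤ n) :
    MjZ (C / (n : ℝ) ^ m) (kr μ n m) := by
  refine hLIB (fun R => fun k => ((sR μ R • (1 : A) - mR μ R) ^ m * mR μ R ^ n).coeff k) _ _
    (hLIA μ h0 h1 hs ha n m) fun R => ?_
  have h2 := mjZ_of_mj (hM (pw μ) (fun j => pw_nonneg ha j) R n hn)
  obtain ⟨Φ, e1, e2, e3, e4, e5⟩ := h2
  refine ⟨Φ, e1, e2, e3, e4.trans ?_, e5⟩
  have hsR : (∑ j ∈ range R, pw μ j) ≤ 1 := sR_le_one h0 h1 hs R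
  have hsR0 : 0 ≤ ∑ j ∈ range R, pw μ j := sR_nonneg ha R
  have hn0 : (0 : ℝ) < n := by exact_mod_cast hn
  calc C / (n : ℝ) ^ m * (∑ j ∈ range R, pw μ j) ^ (n + m) ≤ C / (n : ℝ) ^ m * 1 :=
        mul_le_mul_of_nonneg_left (pow_le_one₀ hsR0 hsR) (by positivity)
    _ = _ := mul_one _

end

/-- **Assembly.** -/
theorem asm (hMIX : S_MIX) (hLIA : S_LIA) (hLIB : S_LIB) (hHL : S_HL) (hDOM : S_DOM) (m : ℕ) :
    ∃ C : ℝ, 0 < C ∧ ∀ μ : ℤ → ℝ, (∀ k, 0 ≤ μ k) → HasSum μ 1 → (∀ k, μ (-k) = μ k) →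
      (∀ n : ℕ, μ (n + 1) ≤ μ n) →
      ∀ (E : Type*) [NormedAddCommGroup E] [NormedSpace ℝ E] [CompleteSpace E] (f : ℤ → E),
        Summable (fun k => ‖f k‖) → ∀ lam : ℝ, 0 < lam →
        {k : ℤ | ENNReal.ofReal lam ≤ ⨆ n : ℕ, ⨆ _ : 1 ≤ n,
          ENNReal.ofReal ((n : ℝ) ^ m * ‖act (kr μ n m) f k‖)}.Finite ∧
        lam * ({k : ℤ | ENNReal.ofReal lam ≤ ⨆ n : ℕ, ⨆ _ : 1 ≤ n,
          ENNReal.ofReal ((n : ℝ) ^ m * ‖act (kr μ n m) f k‖)}.ncard : ℝ) ≤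
          C * ∑' k, ‖f k‖ := by
  obtain ⟨C, hC, hM⟩ := hMIX m
  refine ⟨2 * C, by positivity, fun μ h0 h1 hs ha E _ _ _ f hf lam hlam => ?_⟩
  set F : ℤ → ℝ := fun k => ‖f k‖ with hF
  have hF0 : ∀ k, 0 ≤ F k := fun k => norm_nonneg _
  set L : Set ℤ := {k : ℤ | ENNReal.ofReal lam ≤ ⨆ n : ℕ, ⨆ _ : 1 ≤ n,
          ENNReal.ofReal ((n : ℝ) ^ m * ‖act (kr μ n m) f k‖)} with hL
  let D : ℝ → Set ℤ := fun t => {k : ℤ | ∃ r : ℕ, t * (2 * r + 1) < ∑ j ∈ Icc (k - r) (k + r), F j}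
  have hmaj : ∀ n : ℕ, 1 ≤ n → MjZ (C / (n : ℝ) ^ m) (kr μ n m) := fun n hn =>
    kr_maj h0 h1 hs ha hLIA hLIB hC hM n hn
  -- domination
  have hdom : ∀ (t : ℝ), 0 ≤ t → ∀ k, k ∉ D t → ∀ n : ℕ, 1 ≤ n →
      (n : ℝ) ^ m * ‖act (kr μ n m) f k‖ ≤ C * t := by
    intro t ht k hk n hn
    have hn0 : (0 : ℝ) < n := by exact_mod_cast hn
    obtain ⟨Φ, e1, e2, e3, e4, e5⟩ := hmaj n hn
    have hk' : ∀ r : ℕ, ∑ j ∈ Icc (k - r) (k + r), F j ≤ t * (2 * r + 1) := by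
      intro r
      by_contra hcon
      exact hk ⟨r, not_le.1 hcon⟩
    have e6 := hDOM Φ F (C / (n : ℝ) ^ m) t k e1 e2 e3 e4 hF0 hf ht hk'
    have hFb : ∀ j, F j ≤ ∑' i, F i := fun j => hf.le_tsum j fun i _ => hF0 i
    have hsum : Summable fun j => Φ j * F (k - j) :=
      Summable.of_nonneg_of_le (fun j => mul_nonneg (e2 j) (hF0 _))
        (fun j => mul_le_mul_of_nonneg_left (hFb (k - j)) (e2 j)) (e3.mul_right _)
    have e7 : ‖act (kr μ n m) f k‖ ≤ ∑' j, Φ j * F (k - j) := by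
      have hb : ∀ j, ‖kr μ n m j • f (k - j)‖ ≤ Φ j * F (k - j) := by
        intro j
        rw [norm_smul, Real.norm_eq_abs]
        exact mul_le_mul_of_nonneg_right (e5 j) (hF0 _)
      exact tsum_of_norm_bounded hsum.hasSum hb
    calc (n : ℝ) ^ m * ‖act (kr μ n m) f k‖ ≤ (n : ℝ) ^ m * (C / (n : ℝ) ^ m * t) :=
          mul_le_mul_of_nonneg_left (e7.trans e6) (by positivity)
      _ = C * t := by field_simp
  -- inclusion of level sets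
  have hincl : ∀ t : ℝ, 0 < t → C * t < lam → L ⊆ D t := by
    intro t ht htl k hk
    by_contra hkD
    have h2 : (⨆ n : ℕ, ⨆ _ : 1 ≤ n, ENNReal.ofReal ((n : ℝ) ^ m * ‖act (kr μ n m) f k‖)) ≤
        ENNReal.ofReal (C * t) := by
      refine iSup_le fun n => iSup_le fun hn => ENNReal.ofReal_le_ofReal (hdom t ht.le k hkD n hn)
    have h3 : ENNReal.ofReal lam ≤ ENNReal.ofReal (C * t) := le_trans hk h2
    rw [ENNReal.ofReal_le_ofReal_iff (by positivity)] at h3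
    linarith
  have hfin : ∀ t : ℝ, 0 < t → C * t < lam → L.Finite ∧ t * (L.ncard : ℝ) ≤ 2 * ∑' k, F k := by
    intro t ht htl
    obtain ⟨g1, g2⟩ := hHL F hF0 hf t ht
    refine ⟨g1.subset (hincl t ht htl), le_trans ?_ g2⟩
    have := Set.ncard_le_ncard (hincl t ht htl) g1
    have h9 : (L.ncard : ℝ) ≤ (D t).ncard := Nat.cast_le.2 this
    exact mul_le_mul_of_nonneg_left h9 ht.le
  refine ⟨(hfin (lam / (2 * C)) (by positivity) (by rw [mul_div_assoc']; rw [div_lt_iff₀ (by positivity)]; nlinarith)).1, ?_⟩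
  -- let t tend to lam / C
  have hlim : ∀ t : ℝ, 0 < t → t < lam / C → t * (L.ncard : ℝ) ≤ 2 * ∑' k, F k := by
    intro t ht htl
    refine (hfin t ht ?_).2
    rw [lt_div_iff₀ hC] at htl
    linarith
  have h5 : lam / C * (L.ncard : ℝ) ≤ 2 * ∑' k, F k := by
    by_contra hcon
    push Not at hcon
    rcases (Nat.cast_nonneg (α := ℝ) L.ncard).eq_or_lt with h6 | h6
    · rw [← h6, mul_zero] at hcon
      have : 0 ≤ ∑' k, F k := tsum_nonneg hF0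
      linarith
    · have h7 : (2 * ∑' k, F k) / (L.ncard : ℝ) < lam / C := by
        rw [div_lt_iff₀ h6]
        exact hcon
      obtain ⟨t, ht1, ht2⟩ := exists_between h7
      have h8 : 0 ≤ (2 * ∑' k, F k) / (L.ncard : ℝ) := by
        have : 0 ≤ ∑' k, F k := tsum_nonneg hF0
        positivity
      have h9 := hlim t (lt_of_le_of_lt h8 ht1) ht2
      rw [div_lt_iff₀ h6] at ht1
      linarith
  rw [div_mul_eq_mul_div, div_le_iff₀ hC] at h5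
  calc lam * (L.ncard : ℝ) ≤ 2 * (∑' k, F k) * C := h5
    _ = 2 * C * ∑' k, F k := by ring

end Pool.Agent.U469.RT
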