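import Pool.Agent.R248.Ritt.Trans

/-!
Project RT: symmetric decreasing majorants of `μ^n * (δ - μ)^m` and the weak type maximal
inequalities of all orders for symmetric non-increasing probability measures on the integers.
Statements of the parts.
-/

set_option autoImplicit false

namespace Pool.Agent.U469.RT

open Pool.Agent.R248.Ritt Finset Filter Topology

/-- `h` has a symmetric decreasing majorant of mass at most `C`. -/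
def Mj (C : ℝ) (h : A) : Prop :=
  ∃ Ψ : A, SU Ψ ∧ (∀ k, |h.coeff k| ≤ Ψ.coeff k) ∧ N1 Ψ ≤ C

/-- `h` acts on the elements with a symmetric decreasing majorant: the new majorant has mass at
most `a` times the old mass plus `b` times the old value at `0`, and its value at `0` is at most
`a` times the old one. -/
def Op (a b : ℝ) (h : A) : Prop :=
  ∀ g Φ : A, SU Φ → (∀ k, |g.coeff k| ≤ Φ.coeff k) →
    ∃ Ψ : A, SU Ψ ∧ (∀ k, |(h * g).coeff k| ≤ Ψ.coeff k) ∧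
      N1 Ψ ≤ a * N1 Φ + b * Φ.coeff 0 ∧ Ψ.coeff 0 ≤ a * Φ.coeff 0

/-- OP1: translations. -/
def S_OPT : Prop := ∀ c : ℤ, Op 1 (2 * |(c : ℝ)|) (T c)

/-- OP2: rules. -/
def S_OPR : Prop :=
  Op 1 0 1 ∧
  (∀ r : ℕ, Op 1 0 (U r)) ∧
  (∀ (a b a' b' : ℝ) (h h' : A), Op a b h → Op a' b' h' → Op (a + a') (b + b') (h + h')) ∧
  (∀ (a b t : ℝ) (h : A), Op a b h → Op (|t| * a) (|t| * b) (t • h)) ∧
  (∀ (κ : Type) (s : Finset κ) (a b : κ → ℝ) (h : κ → A), (∀ i ∈ s, Op (a i) (b i) (h i)) →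
    Op (∑ i ∈ s, a i) (∑ i ∈ s, b i) (∑ i ∈ s, h i)) ∧
  (∀ (a b a' b' : ℝ) (h h' : A), 0 ≤ a → 0 ≤ b → Op a b h → Op a' b' h' →
    Op (a * a') (a * b' + b * a') (h * h')) ∧
  (∀ (a b a' b' : ℝ) (h : A), a ≤ a' → b ≤ b' → Op a b h → Op a' b' h)

/-- OPW: `1 - U r` is the second difference times an element acting with `r ^ 2 / 3`. -/
def S_OPW : Prop :=
  ∀ r : ℕ, ∃ w : A, 1 - U r = w * (1 - T 1) * (1 - T (-1)) ∧ Op ((r : ℝ) ^ 2 / 3) 0 w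

/-- OPD: the difference of a symmetric decreasing element. -/
def S_OPD : Prop :=
  ∀ f : A, SU f → Op (2 * f.coeff 0) (2 * N1 f) ((1 - T 1) * f) ∧
    Op (2 * f.coeff 0) (2 * N1 f) ((1 - T (-1)) * f)

/-- TOP: the largest elements. -/
def S_TOP : Prop :=
  ∀ (ι : Type) [DecidableEq ι] (x : ι → ℝ) (N : ℕ) (I : Finset ι), ∃ Top : Finset ι, Top ⊆ I ∧
    Top.card ≤ N ∧ (Top = I ∨ Top.card = N) ∧ ∀ i ∈ I \ Top, ∀ t ∈ Top, x i ≤ x t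

/-- SPL: splitting into `2 m + 1` groups with comparable sums. -/
def S_SPL : Prop :=
  ∀ (ι : Type) [DecidableEq ι] (x : ι → ℝ) (m : ℕ) (I Top S : Finset ι), (∀ i, 0 ≤ x i) →
    Top ⊆ I → Top.card = 3 * m + 1 → (∀ i ∈ I \ Top, ∀ t ∈ Top, x i ≤ x t) → S ⊆ I →
    S.card = m →
    ∃ G : Fin (2 * m + 1) → Finset ι, (∀ g, G g ⊆ I \ S) ∧
      (∀ g g', g ≠ g' → Disjoint (G g) (G g')) ∧
      ∀ g, ∑ i ∈ I \ Top, x i ≤ (3 * m + 1) * ∑ i ∈ G g, x i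

/-- SMB: the sum over all sets `S`. -/
def S_SMB : Prop :=
  ∀ (ι : Type) [DecidableEq ι] (y : ι → ℝ) (m N : ℕ) (K : ℝ) (I Top : Finset ι),
    (∀ i, 0 ≤ y i) → Top ⊆ I → Top.card ≤ N → ∑ i ∈ I \ Top, y i ≤ K →
    ∑ S ∈ powersetCard m I, ∏ i ∈ S \ Top, y i ≤ 2 ^ N * Real.exp K

/-- the product with the differences at the positions in `S` -/
noncomputable def trm {ι : Type} [DecidableEq ι] (I : Finset ι) (r : ι → ℕ) (S : Finset ι) : A :=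
  (∏ i ∈ S, (1 - U (r i))) * ∏ i ∈ I \ S, U (r i)

/-- TRM: the deterministic bound of one term. -/
def S_TRM : Prop :=
  ∀ (ι : Type) [DecidableEq ι] (r : ι → ℕ) (m : ℕ) (I Top S : Finset ι),
    Top ⊆ I → (Top = I ∨ Top.card = 3 * m + 1) →
    (∀ i ∈ I \ Top, ∀ t ∈ Top, (r i : ℝ) ^ 2 ≤ (r t : ℝ) ^ 2) → S ⊆ I → S.card = m →
    Mj (2 ^ m * (2 * m + 1) * ∏ i ∈ S \ Top,
      (10 * (3 * m + 1) * (r i : ℝ) ^ 2 / ∑ l ∈ I \ Top, (r l : ℝ) ^ 2)) (trm I r S)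

/-- SUM: the deterministic bound of the sum of all terms. -/
def S_SUM : Prop :=
  ∀ m : ℕ, ∃ C : ℝ, 0 < C ∧ ∀ (ι : Type) [DecidableEq ι] (r : ι → ℕ) (I : Finset ι),
    ∃ c : Finset ι → ℝ, (∀ S ∈ powersetCard m I, Mj (c S) (trm I r S)) ∧
      ∑ S ∈ powersetCard m I, c S ≤ C

/-- MIX: finite mixtures. -/
def S_MIX : Prop :=
  ∀ m : ℕ, ∃ C : ℝ, 0 < C ∧ ∀ (p : ℕ → ℝ), (∀ j, 0 ≤ p j) → ∀ R n : ℕ, 1 ≤ n →
    Mj (C / (n : ℝ) ^ m * (∑ j ∈ range R, p j) ^ (n + m))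
      (((∑ j ∈ range R, p j) • (1 : A) - ∑ j ∈ range R, p j • U j) ^ m *
      (∑ j ∈ range R, p j • U j) ^ n)

/-- the unit mass at `0` minus `μ` -/
noncomputable def dm (μ : ℤ → ℝ) (k : ℤ) : ℝ := (if k = 0 then 1 else 0) - μ k

/-- LIA: convergence of the truncated kernels. -/
def S_LIA : Prop :=
  ∀ μ : ℤ → ℝ, (∀ k, 0 ≤ μ k) → HasSum μ 1 → (∀ k, μ (-k) = μ k) →
    (∀ n : ℕ, μ (n + 1) ≤ μ n) → ∀ (n m : ℕ) (k : ℤ),
    Tendsto (fun R => ((sR μ R • (1 : A) - mR μ R) ^ m * mR μ R ^ n).coeff k) atTop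
      (𝓝 (cv (cvPow μ n) (cvPow (dm μ) m) k))

/-- a symmetric decreasing majorant of mass at most `C` -/
def MjZ (C : ℝ) (g : ℤ → ℝ) : Prop :=
  ∃ Φ : ℤ → ℝ, (∀ x y : ℤ, |x| ≤ |y| → Φ y ≤ Φ x) ∧ (∀ x, 0 ≤ Φ x) ∧ Summable Φ ∧
    ∑' x, Φ x ≤ C ∧ ∀ k, |g k| ≤ Φ k

/-- LIB: pointwise limits of functions with majorants. -/
def S_LIB : Prop :=
  ∀ (g : ℕ → ℤ → ℝ) (h : ℤ → ℝ) (C : ℝ), (∀ k, Tendsto (fun R => g R k) atTop (𝓝 (h k))) →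
    (∀ R, MjZ C (g R)) → MjZ C h

/-- HL: the weak type inequality for the centred maximal function on the integers. -/
def S_HL : Prop :=
  ∀ F : ℤ → ℝ, (∀ k, 0 ≤ F k) → Summable F → ∀ lam : ℝ, 0 < lam →
    {k : ℤ | ∃ r : ℕ, lam * (2 * r + 1) < ∑ j ∈ Icc (k - r) (k + r), F j}.Finite ∧
    lam * ({k : ℤ | ∃ r : ℕ, lam * (2 * r + 1) < ∑ j ∈ Icc (k - r) (k + r), F j}.ncard : ℝ) ≤
      2 * ∑' k, F k

/-- DOM: convolutions with symmetric decreasing functions and averages. -/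
def S_DOM : Prop :=
  ∀ (Φ F : ℤ → ℝ) (C t : ℝ) (k : ℤ), (∀ x y : ℤ, |x| ≤ |y| → Φ y ≤ Φ x) → (∀ x, 0 ≤ Φ x) →
    Summable Φ → ∑' x, Φ x ≤ C → (∀ k, 0 ≤ F k) → Summable F → 0 ≤ t →
    (∀ r : ℕ, ∑ j ∈ Icc (k - r) (k + r), F j ≤ t * (2 * r + 1)) →
    ∑' j, Φ j * F (k - j) ≤ C * t

end Pool.Agent.U469.RT
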